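/-
The definitions used in the main theorem for MP_55050e_al (q-primitivity rank = primitivity rank).
-/
import Mathlib

open MonoidAlgebra Module

namespace Pool.Agent.Helper29.QP

universe u

/-! ### Primitive elements, primitivity ranks -/

/-- `w` belongs to some free basis of the subgroup `H` of `G`. -/
def PrimIn {G : Type} [Group G] (H : Subgroup G) (w : G) : Prop :=
  ∃ (ι : Type) (b : FreeGroupBasis ι H) (i : ι), ((b i : H) : G) = w

/-- `H` is free with a basis of exactly `m` elements. -/
def HasRank {G : Type} [Group G] (H : Subgroup G) (m : ℕ) : Prop :=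
  Nonempty (FreeGroupBasis (Fin m) H)

/-- The primitivity rank of a word in a free group. -/
noncomputable def primRank {r : ℕ} (w : FreeGroup (Fin r)) : ℕ∞ :=
  sInf {n : ℕ∞ | ∃ (m : ℕ) (H : Subgroup (FreeGroup (Fin r))),
    n = m ∧ HasRank H m ∧ w ∈ H ∧ ¬ PrimIn H w}

/-- The group algebra of the free group on `X`. -/
abbrev GA (K : Type u) [Field K] (X : Type) : Type u := MonoidAlgebra K (FreeGroup X)

/-- Right ideals of the group algebra. -/
abbrev RIdeal (K : Type u) [Field K] (X : Type) : Type u :=
  Submodule (GA K X)ᵐᵒᵖ (GA K X)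

/-- `f` belongs to some basis of the right ideal `I` as a right module. -/
def PrimInIdeal {K : Type u} [Field K] {X : Type} (I : RIdeal K X) (f : GA K X) : Prop :=
  ∃ (ι : Type u) (b : Basis ι (GA K X)ᵐᵒᵖ I) (i : ι), ((b i : I) : GA K X) = f

/-- The right ideal `I` is free with a basis of exactly `m` elements. -/
def IdealHasRank {K : Type u} [Field K] {X : Type} (I : RIdeal K X) (m : ℕ) : Prop :=
  Nonempty (Basis (Fin m) (GA K X)ᵐᵒᵖ I)

/-- The group element `w` as an element of the group algebra. -/
noncomputable abbrev el (K : Type u) [Field K] {X : Type} (w : FreeGroup X) : GA K X :=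
  MonoidAlgebra.single w 1

/-- The `K`-primitivity rank of a word in a free group. -/
noncomputable def primRankK (K : Type u) [Field K] {r : ℕ} (w : FreeGroup (Fin r)) : ℕ∞ :=
  sInf {n : ℕ∞ | ∃ (m : ℕ) (I : RIdeal K (Fin r)),
    n = m ∧ IdealHasRank I m ∧ I ≠ ⊤ ∧ el K w - 1 ∈ I ∧ ¬ PrimInIdeal I (el K w - 1)}

end Pool.Agent.Helper29.QP
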