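/-
Auxiliary definitions for MP_55050e_al (q-primitivity rank = primitivity rank).
-/
import Pool.Agent.Helper29.QP.Core

open MonoidAlgebra Module

namespace Pool.Agent.Helper29.QP

universe u

/-! ### Supports, prefix-closed sets, actions -/

section
variable {K : Type u} [Field K] {X : Type}

/-- The support of `ρ` is contained in `T`. -/
def SuppIn (T : Set (FreeGroup X)) (ρ : GA K X) : Prop := ∀ g, ρ.coeff g ≠ 0 → g ∈ T

/-- Prefix-closed sets (subtrees of the Cayley tree containing `1`, or empty). -/
def PC (T : Set (FreeGroup X)) : Prop :=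
  ∀ L : List (X × Bool), FreeGroup.IsReduced L → FreeGroup.mk L ∈ T →
    ∀ L', L' <+: L → FreeGroup.mk L' ∈ T

/-- Linear extension of a group action to the group algebra. -/
noncomputable def actA {U : Type u} [AddCommGroup U] [Module K U]
    (θ : FreeGroup X →* (U ≃ₗ[K] U)) (a : GA K X) (n : U) : U :=
  a.coeff.sum fun g c => c • θ g n

/-- Sign of an exponent. -/
def sgn (K : Type u) [Field K] (b : Bool) : K := if b then 1 else -1

/-- Tail (in the Cayley graph) of the `j`-th edge of the path reading the word `W` from `1`. -/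
def tl (W : List (X × Bool)) (j : Fin W.length) : FreeGroup X :=
  if (W.get j).2 then FreeGroup.mk (W.take j) else FreeGroup.mk (W.take (j + 1))

end

/-! ### Cyclic data -/

/-- Cyclic data: positions `P` with a permutation `nx` (step `p` goes from position `p` to position
`nx p`), letters with signs, and two families of vectors transported by the letters. -/
structure CycData (K : Type u) [Field K] (X P : Type) (U V : Type u)
    [AddCommGroup U] [Module K U] [AddCommGroup V] [Module K V] where
  /-- next position -/
  nx : Equiv.Perm P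
  /-- letter of the step leaving a position -/
  lt : P → X
  /-- sign of the step leaving a position (`true` = positive) -/
  sg : P → Bool
  /-- the word is cyclically reduced -/
  red : ∀ p, lt p = lt (nx p) → sg p = sg (nx p)
  /-- vectors in `U` -/
  nu : P → U
  /-- vectors in `V` -/
  v : P → V
  /-- action of the letters on `U` -/
  eU : X → (U ≃ₗ[K] U)
  /-- action of the letters on `V` -/
  eV : X → (V ≃ₗ[K] V)
  /-- transport in `U` -/
  hU : ∀ p, eU (lt p) (nu (if sg p = true then p else nx p)) =
    nu (if sg p = false then p else nx p)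
  /-- transport in `V` -/
  hV : ∀ p, eV (lt p) (v (if sg p = true then p else nx p)) =
    v (if sg p = false then p else nx p)

namespace CycData

variable {K : Type u} [Field K] {X P : Type} {U V : Type u}
    [AddCommGroup U] [Module K U] [AddCommGroup V] [Module K V]
    (D : CycData K X P U V)

/-- the tail (`b = true`) or the head (`b = false`) position of step `p`. -/
def pos (p : P) (b : Bool) : P := if D.sg p = b then p else D.nx p

/-- the half-edge block through which the path leaves position `p`. -/
def dep {C : Type} (col : P → C) (p : P) : C × Bool := (col p, D.sg p)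

/-- the half-edge block through which the path arrives at position `p`. -/
def arr {C : Type} (col : P → C) (p : P) : C × Bool :=
  (col (D.nx.symm p), !(D.sg (D.nx.symm p)))

/-- rank of the `U`-vectors at the tails/heads of a set of steps. -/
noncomputable def rk (b : Bool) (S : Set P) : ℕ :=
  finrank K (Submodule.span K ((fun p => D.nu (D.pos p b)) '' S))

/-- functions on positions which on each half-edge block come from a functional on `U`. -/
def LL {C : Type} (col : P → C) : Submodule K (P → K) where
  carrier := {β | ∀ (c : C) (b : Bool), ∃ φ : U →ₗ[K] K, ∀ p, col p = c →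
    β (D.pos p b) = φ (D.nu (D.pos p b))}
  zero_mem' := fun c b => ⟨0, fun p _ => by simp⟩
  add_mem' := by
    intro β γ hβ hγ c b
    obtain ⟨φ, hφ⟩ := hβ c b
    obtain ⟨ψ, hψ⟩ := hγ c b
    exact ⟨φ + ψ, fun p hp => by simp [hφ p hp, hψ p hp]⟩
  smul_mem' := by
    intro a β hβ c b
    obtain ⟨φ, hφ⟩ := hβ c b
    exact ⟨a • φ, fun p hp => by simp [hφ p hp]⟩

/-- A good colouring of the steps with constant `m`. -/
structure Good [Fintype P] (m : ℕ) {C : Type} [Fintype C] [DecidableEq C] (col : P → C) : Prop where
  surj : Function.Surjective col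
  ref : ∀ p q, col p = col q → D.lt p = D.lt q
  zs : ∀ (c : C) (φ : U →ₗ[K] K), ∑ p, (if col p = c then
    (sgn K (D.sg p) * φ (D.nu (D.pos p true))) • D.v (D.pos p true) else 0) = 0
  inv : 1 + ∑ c, D.rk true {p | col p = c} ≤ m + finrank K (D.LL col)

/-- matroid connectivity of all blocks -/
def MC {C : Type} (col : P → C) : Prop :=
  ∀ c, ∀ S : Set P, S ⊆ {p | col p = c} → S.Nonempty → ({p | col p = c} \ S).Nonempty →
    D.rk true {p | col p = c} + 1 ≤ D.rk true S + D.rk true ({p | col p = c} \ S)

end CycData

/-- No cut vertices in the graph with edges `E` and ends `e0`, `e1`. -/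
def NoCut {E Vt : Type} (e0 e1 : E → Vt) : Prop :=
  ∀ (c : Vt) (Y : Set Vt), c ∉ Y → (∀ e, e0 e ∈ Y → e1 e ∈ Y ∨ e1 e = c) →
    (∀ e, e1 e ∈ Y → e0 e ∈ Y ∨ e0 e = c) →
    (∃ e, (e0 e = c ∧ e1 e ∈ Y) ∨ (e1 e = c ∧ e0 e ∈ Y)) →
    ¬ ∃ e, (e0 e = c ∧ e1 e ∉ Y) ∨ (e1 e = c ∧ e0 e ∉ Y)

/-! ### Cyclic words -/

section
variable {X : Type}

/-- inverse of a letter -/
def linv (s : X × Bool) : X × Bool := (s.1, !s.2)

/-- cyclically reduced cyclic words of length `n + 1` -/
def CycRed {n : ℕ} (cw : Fin (n + 1) → X × Bool) : Prop := ∀ i, cw (i + 1) ≠ linv (cw i)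

open Classical in
/-- capacity of a set of letters (vertices) in the Whitehead graph of a cyclic word: the number of
edges `{linv (cw i), cw (i+1)}` with exactly one end in `Z`. -/
noncomputable def cap {n : ℕ} (cw : Fin (n + 1) → X × Bool) (Z : Set (X × Bool)) : ℕ :=
  (Finset.univ.filter fun i => ¬ (linv (cw i) ∈ Z ↔ cw (i + 1) ∈ Z)).card

open Classical in
/-- number of occurrences of the generator `x` in a cyclic word -/
noncomputable def deg {n : ℕ} (cw : Fin (n + 1) → X × Bool) (x : X) : ℕ :=
  (Finset.univ.filter fun i => (cw i).1 = x).card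

/-- no Whitehead automorphism shortens the cyclic word -/
def WMin {n : ℕ} (cw : Fin (n + 1) → X × Bool) : Prop :=
  ∀ (a : X × Bool) (Z : Set (X × Bool)), a ∈ Z → linv a ∉ Z → deg cw a.1 ≤ cap cw Z

end

end Pool.Agent.Helper29.QP
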