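import Pool.Agent.Helper29.QP.Defs

open MonoidAlgebra Module

namespace Pool.Agent.Helper29.QP

universe u
variable {K : Type u} [Field K] {X : Type}

/-- A1: if `w - 1 = ∑ u_i f_i` and `∑ g_i f_i = 1` then `w-1` is primitive in `I`. -/
theorem prim_of_unimodular (fg_free' : ∀ L : RIdeal K X, L.FG → ∃ n, IdealHasRank L n)
    (I : RIdeal K X) {m : ℕ} (b : Basis (Fin m) (GA K X)ᵐᵒᵖ I)
    (y : I) (g : Fin m → GA K X) (hg : ∑ i, g i * (b.repr y i).unop = 1) :
    PrimInIdeal I (y : GA K X) := by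
  classical
  -- θ : I → A, right linear, θ (b i) = g i
  let θ : I →ₗ[(GA K X)ᵐᵒᵖ] GA K X := b.constr ℕ g
  have hθb : ∀ i, θ (b i) = g i := fun i => b.constr_basis ℕ g i
  have hθy : θ y = 1 := by
    have h1 : θ y = ∑ i, b.repr y i • g i := by
      rw [Basis.constr_apply_fintype]
      rfl
    rw [h1, ← hg]
    refine Finset.sum_congr rfl fun i _ => ?_
    rw [← MulOpposite.op_unop (b.repr y i), op_smul_eq_mul]
    rfl
  -- the projection
  let μ : GA K X →ₗ[(GA K X)ᵐᵒᵖ] GA K X :=
    { toFun := fun a => (y : GA K X) * a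
      map_add' := fun a b => mul_add _ _ _
      map_smul' := fun c a => by
        rw [RingHom.id_apply, ← MulOpposite.op_unop c, op_smul_eq_mul, op_smul_eq_mul,
          mul_assoc] }
  let p : I →ₗ[(GA K X)ᵐᵒᵖ] GA K X := I.subtype - μ.comp θ
  have hp : ∀ v : I, p v = (v : GA K X) - (y : GA K X) * θ v := fun v => rfl
  let L : RIdeal K X := LinearMap.range p
  have hLI : L ≤ I := by
    rintro _ ⟨v, rfl⟩
    rw [hp]
    refine I.sub_mem v.2 ?_
    have := I.smul_mem (MulOpposite.op (θ v)) y.2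
    rwa [op_smul_eq_mul] at this
  have hLθ : ∀ v : I, (v : GA K X) ∈ L → θ v = 0 := by
    rintro v ⟨v', hv'⟩
    have hv : v = v' - MulOpposite.op (θ v') • y := by
      apply Subtype.ext
      rw [← hv', hp]
      simp
    rw [hv, map_sub, map_smul, hθy, op_smul_eq_mul, one_mul, sub_self]
  have hLfg : L.FG := by
    have : Module.Finite (GA K X)ᵐᵒᵖ I := Module.Finite.of_basis b
    exact Module.Finite.iff_fg.mp (Module.Finite.range p)
  obtain ⟨n, ⟨c⟩⟩ := fg_free' L hLfg
  let v : Fin n ⊕ Unit → I := Sum.elim (fun i => ⟨c i, hLI (c i).2⟩) (fun _ => y)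
  have hθc : ∀ i, θ (v (Sum.inl i)) = 0 := fun i => hLθ _ (c i).2
  have hli : LinearIndependent (GA K X)ᵐᵒᵖ v := by
    rw [Fintype.linearIndependent_iff]
    intro a ha
    rw [Fintype.sum_sum_type] at ha
    have h1 := congrArg θ ha
    rw [map_add, map_sum, map_sum] at h1
    simp only [map_smul, hθc, smul_zero, Finset.sum_const_zero, zero_add] at h1
    have hr : a (Sum.inr ()) = 0 := by
      have h2 : a (Sum.inr ()) • (1 : GA K X) = 0 := by
        have : θ (v (Sum.inr ())) = 1 := hθy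
        simpa [this] using h1
      rw [← MulOpposite.op_unop (a (Sum.inr ())), op_smul_eq_mul, one_mul] at h2
      exact MulOpposite.unop_injective h2
    have hl : ∑ i, a (Sum.inl i) • c i = 0 := by
      apply Subtype.ext
      have h3 := congrArg (Submodule.subtype I) ha
      simp only [Finset.univ_unique, Finset.sum_singleton, map_add, map_sum, map_smul] at h3
      have hr' : a (Sum.inr default) = 0 := hr
      rw [hr', zero_smul, add_zero, map_zero] at h3
      simpa [v] using h3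
    rintro (i | ⟨⟩)
    · exact Fintype.linearIndependent_iff.mp c.linearIndependent _ hl i
    · exact hr
  have hsp : ⊤ ≤ Submodule.span (GA K X)ᵐᵒᵖ (Set.range v) := by
    intro x _
    have hx : x = (⟨p x, hLI ⟨x, rfl⟩⟩ : I) + MulOpposite.op (θ x) • y := by
      apply Subtype.ext
      simp [hp]
    rw [hx]
    refine Submodule.add_mem _ ?_ (Submodule.smul_mem _ _ (Submodule.subset_span ⟨Sum.inr (), rfl⟩))
    have h4 : (⟨p x, ⟨x, rfl⟩⟩ : L) ∈ Submodule.span (GA K X)ᵐᵒᵖ (Set.range c) := by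
      rw [c.span_eq]; trivial
    have h5 : ∀ z : L, z ∈ Submodule.span (GA K X)ᵐᵒᵖ (Set.range c) →
        (⟨(z : GA K X), hLI z.2⟩ : I) ∈ Submodule.span (GA K X)ᵐᵒᵖ (Set.range v) := by
      intro z hz
      have : (⟨(z : GA K X), hLI z.2⟩ : I) = Submodule.inclusion hLI z := rfl
      rw [this]
      have h6 := Submodule.mem_map_of_mem (f := Submodule.inclusion hLI) hz
      rw [Submodule.map_span] at h6
      refine Submodule.span_mono ?_ h6
      rintro _ ⟨_, ⟨i, rfl⟩, rfl⟩
      exact ⟨Sum.inl i, rfl⟩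
    exact h5 _ h4
  refine ⟨ULift.{u} (Fin n ⊕ Unit), (Basis.mk hli hsp).reindex Equiv.ulift.symm,
    ⟨Sum.inr ()⟩, ?_⟩
  simp [v]

end Pool.Agent.Helper29.QP
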