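import Pool.Agent.Helper29.QP.Defs

namespace Pool.Agent.Helper29.QP

variable {X : Type}

/-- every non-trivial element is conjugate to a cyclically reduced word -/
theorem exists_cycRed (w : FreeGroup X) (hw : w ≠ 1) :
    ∃ (n : ℕ) (cw : Fin (n + 1) → X × Bool), CycRed cw ∧
      (∃ g : FreeGroup X, w = g * FreeGroup.mk (List.ofFn cw) * g⁻¹) ∧
      ∀ W' : List (X × Bool), w = FreeGroup.mk W' → n + 1 ≤ W'.length := by
  classical
  set W := FreeGroup.reduceCyclically w.toWord with hW
  have hcr : FreeGroup.IsCyclicallyReduced W :=
    FreeGroup.reduceCyclically.isCyclicallyReduced FreeGroup.isReduced_toWord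
  have hconj := FreeGroup.reduceCyclically.conj_conjugator_reduceCyclically w.toWord
  have hmk : w = FreeGroup.mk (FreeGroup.reduceCyclically.conjugator w.toWord) *
      FreeGroup.mk W * (FreeGroup.mk (FreeGroup.reduceCyclically.conjugator w.toWord))⁻¹ := by
    rw [FreeGroup.inv_mk, FreeGroup.mul_mk, FreeGroup.mul_mk, hW, hconj, FreeGroup.mk_toWord]
  have hne : W ≠ [] := by
    intro h
    rw [h] at hmk
    apply hw
    rw [hmk, ← FreeGroup.one_eq_mk]
    group
  obtain ⟨n, hn⟩ : ∃ n, W.length = n + 1 :=
    ⟨W.length - 1, (Nat.succ_pred_eq_of_pos (List.length_pos_iff.mpr hne)).symm⟩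
  refine ⟨n, fun i => W.get (i.cast hn.symm), ?_,
    ⟨FreeGroup.mk (FreeGroup.reduceCyclically.conjugator w.toWord), ?_⟩, ?_⟩
  · intro i h
    obtain ⟨hred, hlast⟩ := hcr
    have h1 : (W.get ((i + 1).cast hn.symm)).1 = (W.get (i.cast hn.symm)).1 := by
      have := congrArg Prod.fst h; simpa [linv] using this
    have h2 : (W.get ((i + 1).cast hn.symm)).2 = !(W.get (i.cast hn.symm)).2 := by
      have := congrArg Prod.snd h; simpa [linv] using this
    by_cases hi : i = Fin.last n
    · subst hi
      have h0 : (Fin.last n + 1 : Fin (n + 1)) = 0 := by simp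
      rw [h0] at h1 h2
      have := hlast (W.get ((Fin.last n).cast hn.symm))
        (by
          simp only [Option.mem_def]
          rw [List.getLast?_eq_getElem?]
          simp [hn]) (W.get ((0 : Fin (n + 1)).cast hn.symm))
        (by
          simp only [Option.mem_def]
          rw [List.head?_eq_getElem?]
          simp [hn]) h1.symm
      rw [← this] at h2
      simp at h2
    · have hival : ((i + 1 : Fin (n + 1)) : ℕ) = (i : ℕ) + 1 := by
        have : (i : ℕ) < n := by
          have := i.2
          rcases Nat.lt_or_ge (i : ℕ) n with h | h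
          · exact h
          · exact absurd (Fin.ext (by simp; omega)) hi
        rw [Fin.val_add_one_of_lt]
        exact Fin.lt_def.mpr (by simpa using this)
      have hlt : (i : ℕ) + 1 < W.length := by rw [hn, ← hival]; exact (i + 1).2
      have := List.isChain_iff_getElem.mp hred (i : ℕ) hlt
      simp only [List.get_eq_getElem, Fin.val_cast, hival] at h1 h2
      have h3 := this h1.symm
      rw [← h3] at h2
      simp at h2
  · have : List.ofFn (fun i : Fin (n + 1) => W.get (i.cast hn.symm)) = W := by
      apply List.ext_getElem
      · simp [hn]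
      · intro i h1 h2
        rw [List.getElem_ofFn]
        simp
    rw [this]
    exact hmk
  · intro W' hW'
    have h1 : w.toWord.length ≤ W'.length := by
      rw [hW']
      exact FreeGroup.norm_mk_le
    have h2 := congrArg List.length hconj
    rw [List.length_append, List.length_append, ← hW] at h2
    omega

end Pool.Agent.Helper29.QP
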