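import Pool.Agent.Helper29.QP.Defs
import Pool.Agent.Helper29.QP.CycWord

open MonoidAlgebra Module

namespace Pool.Agent.Helper29.QP

universe u
variable {K : Type u} [Field K] {X : Type}

/-- right multiplication by a group element, as a `K`-linear automorphism -/
noncomputable def rmul (g : FreeGroup X) : GA K X ≃ₗ[K] GA K X where
  toFun a := a * el K g
  invFun a := a * el K g⁻¹
  left_inv a := by
    show a * el K g * el K g⁻¹ = a
    rw [mul_assoc, MonoidAlgebra.single_mul_single, mul_inv_cancel, one_mul]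
    exact mul_one a
  right_inv a := by
    show a * el K g⁻¹ * el K g = a
    rw [mul_assoc, MonoidAlgebra.single_mul_single, inv_mul_cancel, one_mul]
    exact mul_one a
  map_add' a b := add_mul _ _ _
  map_smul' c a := by simp

@[simp] theorem rmul_apply (g : FreeGroup X) (a : GA K X) : rmul g a = a * el K g := rfl

/-- a right ideal as a `K`-subspace -/
def subK (I : RIdeal K X) : Submodule K (GA K X) where
  carrier := I
  add_mem' := I.add_mem
  zero_mem' := I.zero_mem
  smul_mem' := by
    intro c x hx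
    have : c • x = x * MonoidAlgebra.single 1 c := by
      ext g
      rw [MonoidAlgebra.coeff_mul_single_one, MonoidAlgebra.coeff_smul_apply, smul_eq_mul, mul_comm]
    rw [this, ← op_smul_eq_mul]
    exact I.smul_mem _ hx

theorem mem_subK (I : RIdeal K X) (a : GA K X) : a ∈ subK I ↔ a ∈ I := Iff.rfl

theorem subK_map (I : RIdeal K X) (g : FreeGroup X) :
    (subK I).map ((rmul (K := K) g).toLinearMap) = subK I := by
  apply le_antisymm
  · rintro _ ⟨a, ha, rfl⟩
    exact I.smul_mem (MulOpposite.op (el K g)) ha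
  · intro a ha
    exact ⟨a * el K g⁻¹, I.smul_mem (MulOpposite.op (el K g⁻¹)) ha, (rmul g).right_inv a⟩

/-- the (left, by inverses) action of the free group on `A / I`. -/
noncomputable def actV (I : RIdeal K X) : FreeGroup X →* ((GA K X ⧸ subK I) ≃ₗ[K] (GA K X ⧸ subK I)) where
  toFun g := Submodule.Quotient.equiv _ _ (rmul g⁻¹) (subK_map I g⁻¹)
  map_one' := by
    apply LinearEquiv.ext
    intro v
    induction v using Submodule.Quotient.induction_on with
    | _ a =>
      show Submodule.Quotient.mk (a * el K (1 : FreeGroup X)⁻¹) = Submodule.Quotient.mk a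
      rw [inv_one]
      congr 1
      exact mul_one a
  map_mul' g h := by
    apply LinearEquiv.ext
    intro v
    induction v using Submodule.Quotient.induction_on with
    | _ a =>
      show Submodule.Quotient.mk (a * el K (g * h)⁻¹) =
        Submodule.Quotient.mk (a * el K h⁻¹ * el K g⁻¹)
      rw [mul_assoc, MonoidAlgebra.single_mul_single, mul_one, mul_inv_rev]

theorem actV_mk (I : RIdeal K X) (g : FreeGroup X) (a : GA K X) :
    actV I g (Submodule.Quotient.mk a) = Submodule.Quotient.mk (a * el K g⁻¹) := rfl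

theorem actV_inv_one (I : RIdeal K X) (g : FreeGroup X) :
    actV I g⁻¹ (Submodule.Quotient.mk 1) = Submodule.Quotient.mk (el K g) := by
  rw [actV_mk, one_mul, inv_inv]

section
variable {U V : Type u} [AddCommGroup U] [Module K U] [AddCommGroup V] [Module K V]

/-- the action on functions `U* → V`. -/
def actM (θ : FreeGroup X →* (U ≃ₗ[K] U)) (ρ : FreeGroup X →* (V ≃ₗ[K] V)) :
    FreeGroup X →* (((U →ₗ[K] K) → V) ≃ₗ[K] ((U →ₗ[K] K) → V)) where
  toFun g :=
    { toFun := fun z φ => ρ g (z (φ ∘ₗ (θ g : U →ₗ[K] U)))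
      invFun := fun z φ => ρ g⁻¹ (z (φ ∘ₗ (θ g⁻¹ : U →ₗ[K] U)))
      left_inv := by
        intro z
        funext φ
        have h1 : ∀ v, ρ g⁻¹ (ρ g v) = v := fun v => by
          rw [← LinearEquiv.mul_apply, ← map_mul, inv_mul_cancel, map_one]; rfl
        have h2 : (φ ∘ₗ (θ g⁻¹ : U →ₗ[K] U)) ∘ₗ (θ g : U →ₗ[K] U) = φ := by
          ext v
          show φ (θ g⁻¹ (θ g v)) = φ v
          rw [← LinearEquiv.mul_apply, ← map_mul, inv_mul_cancel, map_one]; rfl
        show ρ g⁻¹ (ρ g (z _)) = z φ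
        rw [h1, h2]
      right_inv := by
        intro z
        funext φ
        have h1 : ∀ v, ρ g (ρ g⁻¹ v) = v := fun v => by
          rw [← LinearEquiv.mul_apply, ← map_mul, mul_inv_cancel, map_one]; rfl
        have h2 : (φ ∘ₗ (θ g : U →ₗ[K] U)) ∘ₗ (θ g⁻¹ : U →ₗ[K] U) = φ := by
          ext v
          show φ (θ g (θ g⁻¹ v)) = φ v
          rw [← LinearEquiv.mul_apply, ← map_mul, mul_inv_cancel, map_one]; rfl
        show ρ g (ρ g⁻¹ (z _)) = z φ
        rw [h1, h2]
      map_add' := fun y z => by funext φ; simp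
      map_smul' := fun c z => by funext φ; simp }
  map_one' := by
    apply LinearEquiv.ext
    intro z
    funext φ
    show ρ 1 (z (φ ∘ₗ (θ 1 : U →ₗ[K] U))) = z φ
    rw [map_one, map_one]
    rfl
  map_mul' g h := by
    apply LinearEquiv.ext
    intro z
    funext φ
    show ρ (g * h) (z (φ ∘ₗ (θ (g * h) : U →ₗ[K] U))) =
      ρ g (ρ h (z ((φ ∘ₗ (θ g : U →ₗ[K] U)) ∘ₗ (θ h : U →ₗ[K] U))))
    rw [map_mul, map_mul]
    rfl

theorem actM_apply (θ : FreeGroup X →* (U ≃ₗ[K] U)) (ρ : FreeGroup X →* (V ≃ₗ[K] V))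
    (g : FreeGroup X) (z : (U →ₗ[K] K) → V) (φ : U →ₗ[K] K) :
    actM θ ρ g z φ = ρ g (z (φ ∘ₗ (θ g : U →ₗ[K] U))) := rfl

end

theorem cyc_succ {n : ℕ} {Y : Type*} (F : ℕ → Y) (h : F (n + 1) = F 0) (p : Fin (n + 1)) :
    F ((p : ℕ) + 1) = F ((p + 1 : Fin (n + 1)) : ℕ) := by
  by_cases hp : p = Fin.last n
  · subst hp
    simp [h]
  · have : (p : ℕ) < n := by
      rcases Nat.lt_or_ge (p : ℕ) n with h | h
      · exact h
      · exact absurd (Fin.ext (by simp; omega)) hp
    rw [Fin.val_add_one_of_lt]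
    exact Fin.lt_def.mpr (by simpa using this)

end Pool.Agent.Helper29.QP
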