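/-
Assembly of part A (primitivity rank is at most the K-primitivity rank) for cyclically reduced
words.  Modules by helper91 (exists_module), helper79 (letter_zero_sum), helper5 (split_MC,
split_NC), helper47 and helper4 (good_count), helper15 (exists_subgroup).
-/
import Pool.Agent.Helper29.QP.AsmA1
import Pool.Agent.Helper29.QP.AsmA2
import Pool.Agent.Helper91.QPT2
import Pool.Agent.Helper79.QP.Fox
import Pool.Agent.Helper5.QPT4
import Pool.Agent.Helper4.QP.T5
import Pool.Agent.Helper15.QP.T6

open MonoidAlgebra Module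
open Pool.Agent.Helper91.QP (exists_module)
open Pool.Agent.Helper79.QP (letter_zero_sum)
open Pool.Agent.Helper5.QP4 (split_MC split_NC)
open Pool.Agent.Helper4.QP (good_count)
open Pool.Agent.Helper15.QP (exists_subgroup)

namespace Pool.Agent.Helper29.QP

universe u
variable {K : Type u} [Field K] {X : Type}

/-- iterate the splittings -/
theorem exists_final {P : Type} {U V : Type u} [AddCommGroup U] [Module K U] [AddCommGroup V]
    [Module K V] [Fintype P] [DecidableEq P] [FiniteDimensional K U] (D : CycData K X P U V)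
    (m : ℕ) (k : ℕ) : ∀ {C : Type} [Fintype C] [DecidableEq C] (col : P → C),
    D.Good m col → Fintype.card P - Fintype.card C = k →
    ∃ (C' : Type) (_ : Fintype C') (_ : DecidableEq C') (col' : P → C'),
      D.Good m col' ∧ D.MC col' ∧ NoCut (D.dep col') (D.arr col') := by
  induction k with
  | zero =>
    intro C _ _ col hg hk
    by_cases h1 : D.MC col
    · by_cases h2 : NoCut (D.dep col) (D.arr col)
      · exact ⟨C, _, _, col, hg, h1, h2⟩
      · obtain ⟨C', _, _, col', hg', hc⟩ := split_NC D m col hg h2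
        have := Fintype.card_le_of_surjective col' hg'.surj
        omega
    · obtain ⟨C', _, _, col', hg', hc⟩ := split_MC D m col hg h1
      have := Fintype.card_le_of_surjective col' hg'.surj
      omega
  | succ k ih =>
    intro C _ _ col hg hk
    by_cases h1 : D.MC col
    · by_cases h2 : NoCut (D.dep col) (D.arr col)
      · exact ⟨C, _, _, col, hg, h1, h2⟩
      · obtain ⟨C', _, _, col', hg', hc⟩ := split_NC D m col hg h2
        exact ih col' hg' (by omega)
    · obtain ⟨C', _, _, col', hg', hc⟩ := split_MC D m col hg h1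
      exact ih col' hg' (by omega)

theorem finrank_LL_ge {P : Type} {U V : Type u} [AddCommGroup U] [Module K U] [AddCommGroup V]
    [Module K V] [Fintype P] [FiniteDimensional K U] (D : CycData K X P U V) {C : Type}
    (col : P → C) : finrank K (Submodule.span K (Set.range D.nu)) ≤ finrank K (D.LL col) := by
  classical
  let Φ : Module.Dual K U →ₗ[K] (P → K) :=
    { toFun := fun φ p => φ (D.nu p)
      map_add' := fun φ ψ => rfl
      map_smul' := fun c φ => rfl }
  have h1 : LinearMap.range Φ ≤ D.LL col := by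
    rintro _ ⟨φ, rfl⟩ c b
    exact ⟨φ, fun p _ => rfl⟩
  have h2 : LinearMap.ker Φ = (Submodule.span K (Set.range D.nu)).dualAnnihilator := by
    ext φ
    rw [LinearMap.mem_ker, Submodule.mem_dualAnnihilator]
    constructor
    · intro h w hw
      induction hw using Submodule.span_induction with
      | mem x hx => obtain ⟨p, rfl⟩ := hx; exact congrFun h p
      | zero => simp
      | add x y _ _ hx hy => rw [map_add, hx, hy, add_zero]
      | smul c x _ hx => rw [map_smul, hx, smul_zero]
    · intro h
      funext p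
      exact h _ (Submodule.subset_span ⟨p, rfl⟩)
  have h3 := LinearMap.finrank_range_add_finrank_ker Φ
  have h4 := Subspace.finrank_add_finrank_dualAnnihilator_eq (Submodule.span K (Set.range D.nu))
  have h5 : finrank K (Module.Dual K U) = finrank K U := Subspace.dual_finrank_eq
  rw [h2] at h3
  have h6 := Submodule.finrank_mono h1
  omega

/-- the main construction for cyclically reduced words -/
theorem partA_cyc [Fintype X] [DecidableEq X] {n : ℕ} (cw : Fin (n + 1) → X × Bool)
    (hred : CycRed cw) (I : RIdeal K X) (hI : (1 : GA K X) ∉ I) {m : ℕ} (a f : Fin m → GA K X)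
    (ha : ∀ i, a i ∈ I) (hw : ∑ i, a i * f i = el K (FreeGroup.mk (List.ofFn cw)) - 1)
    (hf : ∀ g : Fin m → GA K X, ∑ i, g i * f i ≠ 1) :
    ∃ S : Finset (FreeGroup X), S.card ≤ m ∧
      FreeGroup.mk (List.ofFn cw) ∈ Subgroup.closure (S : Set (FreeGroup X)) ∧
      ¬ PrimIn (Subgroup.closure (S : Set (FreeGroup X))) (FreeGroup.mk (List.ofFn cw)) := by
  set W := List.ofFn cw with hW
  have hL : W.length = n + 1 := by simp [hW]
  -- prefixes
  let Pf : ℕ → FreeGroup X := fun j => FreeGroup.mk (W.take j)
  have hP0 : Pf 0 = 1 := by simp [Pf, FreeGroup.one_eq_mk]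
  have hPn : Pf (n + 1) = FreeGroup.mk W := by
    simp only [Pf]; rw [List.take_of_length_le]; omega
  have hget : ∀ p : Fin (n + 1), W.get (p.cast hL.symm) = cw p := by
    intro p
    have : ∀ (W' : List (X × Bool)) (h : W' = List.ofFn cw) (q : Fin W'.length),
        (q : ℕ) = p → W'.get q = cw p := by
      rintro _ rfl q hq
      rw [List.get_ofFn]
      congr 1
      exact Fin.ext hq
    exact this W hW _ rfl
  have hPs : ∀ p : Fin (n + 1), Pf ((p : ℕ) + 1) = Pf p * FreeGroup.mk [cw p] := by
    intro p
    simp only [Pf]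
    rw [FreeGroup.mul_mk]
    congr 1
    have hp : (p : ℕ) < W.length := by rw [hL]; exact p.2
    rw [List.take_succ_eq_append_getElem hp]
    congr 2
    exact hget p
  have htl : ∀ p : Fin (n + 1), tl W (p.cast hL.symm) =
      if (cw p).2 = true then Pf p else Pf ((p : ℕ) + 1) := by
    intro p
    unfold tl
    rw [hget]
    rfl
  -- the module
  let T0 : Finset (FreeGroup X) := (Finset.range (n + 2)).image Pf
  have hPT0 : ∀ j, j ≤ n + 1 → Pf j ∈ T0 := fun j hj =>
    Finset.mem_image_of_mem _ (Finset.mem_range.mpr (by omega))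
  obtain ⟨U, _, _, _, θ, u0, hu0, hfu, hrank⟩ := exists_module f hf T0 (hP0 ▸ hPT0 0 (by omega))
  obtain ⟨hfix, hzs⟩ := letter_zero_sum I a f ha W hw θ u0 hfu
  have hfix' : θ (FreeGroup.mk W)⁻¹ u0 = u0 := by
    conv_lhs => rw [← hfix]
    rw [← LinearEquiv.mul_apply, ← map_mul, inv_mul_cancel, map_one]; rfl
  let V := GA K X ⧸ subK I
  let v0 : V := Submodule.Quotient.mk 1
  have hv0 : v0 ≠ 0 := by
    intro h
    rw [Submodule.Quotient.mk_eq_zero] at h
    exact hI h
  have hWI : el K (FreeGroup.mk W) - 1 ∈ I := by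
    rw [← hw]
    refine I.sum_mem fun i _ => ?_
    rw [← op_smul_eq_mul]
    exact I.smul_mem _ (ha i)
  have hVfix : actV I (FreeGroup.mk W)⁻¹ v0 = v0 := by
    rw [actV_inv_one]
    exact (Submodule.Quotient.eq _).mpr hWI
  -- vectors
  let nu : Fin (n + 1) → U := fun p => θ (Pf p)⁻¹ u0
  let v : Fin (n + 1) → V := fun p => actV I (Pf p)⁻¹ v0
  let nx : Equiv.Perm (Fin (n + 1)) := Equiv.addRight 1
  have hnx : ∀ p, nx p = p + 1 := fun p => rfl
  have hnus : ∀ p : Fin (n + 1), θ (Pf ((p : ℕ) + 1))⁻¹ u0 = nu (p + 1) := by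
    intro p
    exact cyc_succ (fun j => θ (Pf j)⁻¹ u0) (by simp only [hPn, hP0, hfix']; simp) p
  have hvs : ∀ p : Fin (n + 1), actV I (Pf ((p : ℕ) + 1))⁻¹ v0 = v (p + 1) := by
    intro p
    exact cyc_succ (fun j => actV I (Pf j)⁻¹ v0) (by simp only [hPn, hP0, hVfix]; simp) p
  have hofmk : ∀ x : X, (FreeGroup.of x : FreeGroup X) = FreeGroup.mk [(x, true)] := fun x => rfl
  have htrans : ∀ {U' : Type u} [AddCommGroup U'] [Module K U'] (ρ : FreeGroup X →* (U' ≃ₗ[K] U'))
      (u' : U') (nu' : Fin (n + 1) → U') (hnu' : ∀ p, nu' p = ρ (Pf p)⁻¹ u')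
      (hnus' : ∀ p : Fin (n + 1), ρ (Pf ((p : ℕ) + 1))⁻¹ u' = nu' (p + 1)) (p : Fin (n + 1)),
      ρ (FreeGroup.of (cw p).1)⁻¹ (nu' (if (cw p).2 = true then p else p + 1)) =
        nu' (if (cw p).2 = false then p else p + 1) := by
    intro U' _ _ ρ u' nu' hnu' hnus' p
    by_cases hb : (cw p).2 = true
    · rw [if_pos hb, if_neg (by simp [hb]), hnu' p, ← hnus' p, hPs p, ← LinearEquiv.mul_apply,
        ← map_mul, mul_inv_rev]
      have : (FreeGroup.mk [cw p] : FreeGroup X) = FreeGroup.of (cw p).1 := by
        rw [hofmk]; congr 2; ext <;> simp [hb]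
      rw [this]
    · have hb' : (cw p).2 = false := by simpa using hb
      rw [if_neg hb, if_pos hb', hnu' p, ← hnus' p, hPs p, ← LinearEquiv.mul_apply,
        ← map_mul, mul_inv_rev]
      have : (FreeGroup.mk [cw p] : FreeGroup X) = (FreeGroup.of (cw p).1)⁻¹ := by
        rw [hofmk, FreeGroup.inv_mk, FreeGroup.invRev]
        congr 1
        simp [← hb']
      rw [this, inv_inv, inv_mul_cancel_left]
  let D : CycData K X (Fin (n + 1)) U V :=
    { nx := nx
      lt := fun p => (cw p).1
      sg := fun p => (cw p).2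
      red := by
        intro p h
        by_contra h2
        apply hred p
        rw [hnx] at h h2
        unfold linv
        ext
        · exact h.symm
        · rcases h3 : (cw p).2 <;> rcases h4 : (cw (p + 1)).2 <;> simp_all
      nu := nu
      v := v
      eU := fun x => θ (FreeGroup.of x)⁻¹
      eV := fun x => actV I (FreeGroup.of x)⁻¹
      hU := fun p => htrans θ u0 nu (fun p => rfl) hnus p
      hV := fun p => htrans (actV I) v0 v (fun p => rfl) hvs p }
  have hposU : ∀ p : Fin (n + 1), D.nu (D.pos p true) = θ (tl W (p.cast hL.symm))⁻¹ u0 := by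
    intro p
    rw [htl]
    show nu (if (cw p).2 = true then p else p + 1) = _
    by_cases hb : (cw p).2 = true
    · rw [if_pos hb, if_pos hb]
    · rw [if_neg hb, if_neg hb, ← hnus]
  have hposV : ∀ p : Fin (n + 1), D.v (D.pos p true) =
      actV I (tl W (p.cast hL.symm))⁻¹ v0 := by
    intro p
    rw [htl]
    show v (if (cw p).2 = true then p else p + 1) = _
    by_cases hb : (cw p).2 = true
    · rw [if_pos hb, if_pos hb]
    · rw [if_neg hb, if_neg hb, ← hvs]
  -- initial colouring
  let C0 := {x : X // ∃ p, (cw p).1 = x}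
  let col0 : Fin (n + 1) → C0 := fun p => ⟨(cw p).1, p, rfl⟩
  let _ : Fintype C0 := Fintype.ofFinite C0
  have hgood0 : D.Good m col0 := by
    refine ⟨?_, ?_, ?_, ?_⟩
    · rintro ⟨x, p, hp⟩
      exact ⟨p, Subtype.ext hp⟩
    · intro p q h
      exact congrArg Subtype.val h
    · rintro ⟨x, hx⟩ φ
      have h1 := hzs φ x
      have h2 : (Submodule.Quotient.mk (∑ j : Fin W.length, (if (W.get j).1 = x then
        (sgn K (W.get j).2 * φ (θ (tl W j)⁻¹ u0)) • el K (tl W j) else 0)) : V) = 0 :=
        (Submodule.Quotient.mk_eq_zero _).mpr h1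
      rw [← Submodule.mkQ_apply, map_sum] at h2
      rw [← Equiv.sum_comp (finCongr hL.symm)] at h2
      refine Eq.trans ?_ h2
      refine Finset.sum_congr rfl fun p _ => ?_
      have h3 : (finCongr hL.symm) p = p.cast hL.symm := rfl
      rw [h3, hget]
      have h4 : (col0 p = ⟨x, hx⟩) ↔ (cw p).1 = x :=
        ⟨fun h => congrArg Subtype.val h, fun h => Subtype.ext h⟩
      by_cases hx' : (cw p).1 = x
      · rw [if_pos (h4.mpr hx'), if_pos hx', map_smul, hposU, hposV, actV_inv_one]
        rfl
      · rw [if_neg (fun h => hx' (h4.mp h)), if_neg hx', map_zero]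
    · let Z : X → Finset (FreeGroup X) := fun x =>
        (Finset.univ.filter fun p : Fin (n + 1) => (cw p).1 = x).image
          fun p => tl W (p.cast hL.symm)
      have hZ : ∀ x, ∀ τ ∈ Z x, τ ∈ T0 ∧ τ * FreeGroup.of x ∈ T0 := by
        intro x τ hτ
        obtain ⟨p, hp, rfl⟩ := Finset.mem_image.mp hτ
        have hp' : (cw p).1 = x := (Finset.mem_filter.mp hp).2
        rw [htl]
        by_cases hb : (cw p).2 = true
        · rw [if_pos hb]
          refine ⟨hPT0 _ (by omega), ?_⟩
          have : (FreeGroup.mk [cw p] : FreeGroup X) = FreeGroup.of x := by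
            rw [hofmk]; congr 2; ext <;> simp [hb, hp']
          rw [← this, ← hPs]
          exact hPT0 _ (by omega)
        · have hb' : (cw p).2 = false := by simpa using hb
          rw [if_neg hb]
          refine ⟨hPT0 _ (by omega), ?_⟩
          have : (FreeGroup.mk [cw p] : FreeGroup X) = (FreeGroup.of x)⁻¹ := by
            rw [hofmk, FreeGroup.inv_mk, FreeGroup.invRev]
            congr 1
            simp [← hb', ← hp']
          rw [hPs, this, inv_mul_cancel_right]
          exact hPT0 _ (by omega)
      have h1 := hrank Z hZ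
      have h2 : ∀ c : C0, D.rk true {p | col0 p = c} =
          finrank K (Submodule.span K ((fun τ => θ τ⁻¹ u0) '' (Z c.1 : Set (FreeGroup X)))) := by
        rintro ⟨x, hx⟩
        unfold CycData.rk
        have h2' : (fun p => D.nu (D.pos p true)) '' {p | col0 p = ⟨x, hx⟩} =
          (fun τ => θ τ⁻¹ u0) '' (Z x : Set (FreeGroup X)) := ?_
        rw [h2']
        ext y
        constructor
        · rintro ⟨p, hp, rfl⟩
          refine ⟨tl W (p.cast hL.symm), ?_, (hposU p).symm⟩
          rw [Finset.mem_coe]
          exact Finset.mem_image_of_mem _ (Finset.mem_filter.mpr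
            ⟨Finset.mem_univ _, congrArg Subtype.val hp⟩)
        · rintro ⟨τ, hτ, rfl⟩
          rw [Finset.mem_coe] at hτ
          obtain ⟨p, hp, rfl⟩ := Finset.mem_image.mp hτ
          exact ⟨p, Subtype.ext (Finset.mem_filter.mp hp).2, hposU p⟩
      have h3 : ∑ c : C0, D.rk true {p | col0 p = c} ≤
          ∑ x, finrank K (Submodule.span K ((fun τ => θ τ⁻¹ u0) '' (Z x : Set (FreeGroup X)))) := by
        rw [Finset.sum_congr rfl fun c _ => h2 c]
        have h6 : ∀ F : X → ℕ, ∑ c : C0, F c.1 ≤ ∑ x, F x := by
          intro F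
          have : ∑ x ∈ (Finset.univ : Finset C0).map (Function.Embedding.subtype _), F x =
            ∑ c : C0, F c.1 := Finset.sum_map _ _ _
          rw [← this]
          exact Finset.sum_le_sum_of_subset (Finset.subset_univ _)
        exact h6 fun x => finrank K (Submodule.span K ((fun τ => θ τ⁻¹ u0) ''
            (Z x : Set (FreeGroup X))))
      have h4 : (fun τ => θ τ⁻¹ u0) '' (T0 : Set (FreeGroup X)) = Set.range D.nu := by
        ext y
        constructor
        · rintro ⟨τ, hτ, rfl⟩
          rw [Finset.mem_coe] at hτ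
          obtain ⟨j, hj, rfl⟩ := Finset.mem_image.mp hτ
          rw [Finset.mem_range] at hj
          rcases Nat.lt_or_ge j (n + 1) with h | h
          · exact ⟨⟨j, h⟩, rfl⟩
          · have : j = n + 1 := by omega
            subst this
            refine ⟨0, ?_⟩
            show θ (Pf 0)⁻¹ u0 = θ (Pf (n + 1))⁻¹ u0
            rw [hP0, hPn, hfix', inv_one, map_one]; rfl
        · rintro ⟨p, rfl⟩
          exact ⟨Pf p, hPT0 _ (by omega), rfl⟩
      have h5 := finrank_LL_ge D col0
      rw [h4] at h1
      omega
  obtain ⟨C, _, _, col, hg, hMC, hNC⟩ := exists_final D m _ col0 hgood0 rfl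
  obtain ⟨Q, _, cl, hcl, hdeparr, hcount⟩ := good_count D m col hg hMC hNC
  -- the big module
  let z : (U →ₗ[K] K) → V := fun φ => φ u0 • v0
  have hz : z ≠ 0 := by
    intro h
    apply hu0
    rw [← Module.forall_dual_apply_eq_zero_iff K]
    intro φ
    have h1 : φ u0 • v0 = 0 := congrFun h φ
    rcases smul_eq_zero.mp h1 with h2 | h2
    · exact h2
    · exact absurd h2 hv0
  have hne : W ≠ [] := by
    intro h
    rw [h] at hL
    simp at hL
  have hzact : ∀ g : FreeGroup X, ∀ φ, actM θ (actV I) g z φ = φ (θ g u0) • actV I g v0 := by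
    intro g φ
    rw [actM_apply]
    simp [z]
  have hzfix : actM θ (actV I) (FreeGroup.mk W) z = z := by
    funext φ
    rw [hzact, hfix]
    have : actV I (FreeGroup.mk W) v0 = v0 := by
      conv_lhs => rw [← hVfix]
      rw [← LinearEquiv.mul_apply, ← map_mul, mul_inv_cancel, map_one]; rfl
    rw [this]
  let col' : Fin W.length → C := fun j => col (j.cast hL)
  have hlt : ∀ p, (cw p).1 = D.lt p := fun p => rfl
  have hget' : ∀ j : Fin W.length, W.get j = cw (j.cast hL) := by
    intro j
    rw [← hget]
    rfl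
  obtain ⟨S, hS1, hS2, hS3⟩ := exists_subgroup (actM θ (actV I)) z hz W hne hzfix col'
    (by
      intro c
      obtain ⟨p, hp⟩ := hg.surj c
      exact ⟨p.cast hL.symm, hp⟩)
    (by
      intro i j hij
      rw [hget', hget']
      exact hg.ref _ _ hij)
    (by
      intro c
      funext φ
      have h1 := hg.zs c φ
      rw [Finset.sum_apply, ← Equiv.sum_comp (finCongr hL.symm)]
      refine Eq.trans ?_ h1
      refine Finset.sum_congr rfl fun p _ => ?_
      have h3 : (finCongr hL.symm) p = p.cast hL.symm := rfl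
      rw [h3, hget]
      have h4 : col' (p.cast hL.symm) = col p := rfl
      rw [h4]
      by_cases hc : col p = c
      · rw [if_pos hc, if_pos hc, Pi.smul_apply, hzact, hposU, hposV, smul_smul]
      · rw [if_neg hc, if_neg hc]
        rfl)
    cl hcl
    (by
      intro i j hij
      rw [hget', hget']
      have h1 : (i.cast hL) + 1 = j.cast hL := by
        rcases hij with h | ⟨h, h'⟩
        · apply Fin.ext
          have h2 : (i.cast hL : ℕ) = i := rfl
          have h3 : (j.cast hL : ℕ) = j := rfl
          rw [Fin.val_add_one_of_lt, h2, h3, h]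
          rw [Fin.lt_def, h2, Fin.val_last]
          have := j.2
          omega
        · have h2 : i.cast hL = Fin.last n := Fin.ext (by
            have h2 : (i.cast hL : ℕ) = i := rfl
            rw [h2, Fin.val_last]; omega)
          have h3 : j.cast hL = 0 := Fin.ext (by
            have h2 : (j.cast hL : ℕ) = j := rfl
            rw [h2, h']; rfl)
          rw [h2, h3]; simp
      have h2 := hdeparr (j.cast hL)
      have h3 : D.nx.symm (j.cast hL) = i.cast hL := by
        rw [Equiv.symm_apply_eq]; exact h1.symm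
      unfold CycData.dep CycData.arr at h2
      rw [h3] at h2
      exact h2.symm)
  exact ⟨S, by omega, hS2, hS3⟩

end Pool.Agent.Helper29.QP
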