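/-
Assembly of part B (the K-primitivity rank is at most the primitivity rank).  Modules by helper92
(whitehead_step), helper14 (tree_argument), helper49 (primitive_of_deg_one, primitive_map),
helper95 (ideal_of_subgroup).
-/
import Pool.Agent.Helper92.QPB1
import Pool.Agent.Helper14.QPB4
import Pool.Agent.Helper49.QPB5
import Pool.Agent.Helper49.QPB6
import Pool.Agent.Helper95.QPT9
import Pool.Agent.Helper29.QP.CycWord

open MonoidAlgebra Module
open Pool.Agent.Helper92.QP (whitehead_step)
open Pool.Agent.Helper14.QPB4 (tree_argument)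
open Pool.Agent.Helper49.QPB5 (primitive_of_deg_one)
open Pool.Agent.Helper49.QPB6 (primitive_map)
open Pool.Agent.Helper95.QPT9 (ideal_of_subgroup)

namespace Pool.Agent.Helper29.QP

universe u
variable {K : Type u} [Field K] {X : Type}

/-- `w` lies in a basis of the free group -/
def PrimFG (w : FreeGroup X) : Prop :=
  ∃ (ι : Type) (b : FreeGroupBasis ι (FreeGroup X)) (i : ι), b i = w

theorem PrimFG.map_equiv {w : FreeGroup X} (h : PrimFG w) (α : FreeGroup X ≃* FreeGroup X) :
    PrimFG (α w) := by
  obtain ⟨ι, b, i, hi⟩ := h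
  exact ⟨ι, b.map α, i, by rw [FreeGroupBasis.map_apply, hi]⟩

/-- finite coboundary in all directions -/
theorem cob_all (f : FreeGroup X → K) (hf : ∀ x, {g | f (g * FreeGroup.of x) ≠ f g}.Finite)
    (h : FreeGroup X) : {g | f (g * h) ≠ f g}.Finite := by
  induction h using FreeGroup.induction_on with
  | C1 => simp
  | of x => exact hf x
  | inv_of x _ =>
    have h1 : {g | f (g * (FreeGroup.of x)⁻¹) ≠ f g} ⊆
        (fun g => g * FreeGroup.of x) '' {g | f (g * FreeGroup.of x) ≠ f g} := by
      intro g hg
      refine ⟨g * (FreeGroup.of x)⁻¹, ?_, by simp⟩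
      simp only [Set.mem_ofPred_eq, inv_mul_cancel_right] at hg ⊢
      exact fun h => hg h.symm
    exact ((hf x).image _).subset h1
  | mul y z hy hz =>
    have h1 : {g | f (g * (y * z)) ≠ f g} ⊆
        (fun g => g * y⁻¹) '' {g | f (g * z) ≠ f g} ∪ {g | f (g * y) ≠ f g} := by
      intro g hg
      by_cases h2 : f (g * y) = f g
      · left
        refine ⟨g * y, ?_, by simp⟩
        simp only [Set.mem_ofPred_eq] at hg ⊢
        rw [mul_assoc, h2]
        exact hg
      · right; exact h2
    exact ((hz.image _).union hy).subset h1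

theorem prim_aux (k : ℕ) : ∀ {X : Type} [Finite X] (w : FreeGroup X) (W : List (X × Bool)),
    W.length ≤ k → (∃ g, w = g * FreeGroup.mk W * g⁻¹) → ∀ f : FreeGroup X → K,
    (∀ x, {g | f (g * FreeGroup.of x) ≠ f g}.Finite) → f w = f 1 + 1 →
    (∀ g, g ≠ 1 → f (g * w) = f g) → PrimFG w := by
  induction k with
  | zero =>
    intro X _ w W hW hg f hf h1 h2
    have : W = [] := List.length_eq_zero_iff.mp (by omega)
    subst this
    obtain ⟨g, rfl⟩ := hg
    rw [← FreeGroup.one_eq_mk, mul_one, mul_inv_cancel] at h1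
    exact absurd h1 (by simp)
  | succ k ih =>
    intro X _ w W hW hg f hf h1 h2
    obtain ⟨g, hg⟩ := hg
    have hw1 : FreeGroup.mk W ≠ 1 := by
      intro h
      rw [h, mul_one, mul_inv_cancel] at hg
      rw [hg] at h1
      exact absurd h1 (by simp)
    obtain ⟨n, cw, hred, ⟨g', hg'⟩, hlen⟩ := exists_cycRed _ hw1
    have hn : n + 1 ≤ k + 1 := le_trans (hlen W rfl) hW
    -- conjugate
    have hgg : w = (g * g') * FreeGroup.mk (List.ofFn cw) * (g * g')⁻¹ := by
      rw [hg, hg']; group
    set c := g * g' with hc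
    set w1 := FreeGroup.mk (List.ofFn cw) with hw1def
    have hα : w = MulAut.conj c w1 := by rw [hgg]; rfl
    let f1 : FreeGroup X → K := fun b => f (c * b * c⁻¹)
    have hf1 : ∀ h, {b | f1 (b * h) ≠ f1 b}.Finite := by
      intro h
      have h3 := cob_all f hf (c * h * c⁻¹)
      have h4 : {b | f1 (b * h) ≠ f1 b} ⊆ (fun a => c⁻¹ * a * c) '' {g | f (g * (c * h * c⁻¹)) ≠ f g} := by
        intro b hb
        refine ⟨c * b * c⁻¹, ?_, by group⟩
        simp only [Set.mem_ofPred_eq, f1] at hb ⊢
        convert hb using 2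
        group
      exact (h3.image _).subset h4
    have h11 : f1 w1 = f1 1 + 1 := by
      show f (c * w1 * c⁻¹) = f (c * 1 * c⁻¹) + 1
      rw [← hgg, h1]
      simp
    have h12 : ∀ b, b ≠ 1 → f1 (b * w1) = f1 b := by
      intro b hb
      show f (c * (b * w1) * c⁻¹) = f (c * b * c⁻¹)
      have : c * (b * w1) * c⁻¹ = (c * b * c⁻¹) * w := by rw [hgg]; group
      rw [this]
      apply h2
      intro h
      apply hb
      have : b = c⁻¹ * (c * b * c⁻¹) * c := by group
      rw [this, h]; group
    -- restrict to the occurring letters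
    let Y := {x : X // ∃ i, (cw i).1 = x}
    let e : Y ↪ X := Function.Embedding.subtype _
    let cy : Fin (n + 1) → Y × Bool := fun i => (⟨(cw i).1, i, rfl⟩, (cw i).2)
    have hmap : FreeGroup.map e (FreeGroup.mk (List.ofFn cy)) = w1 := by
      rw [FreeGroup.map.mk, hw1def, List.map_ofFn]
      congr 1
    have hinj : Function.Injective (FreeGroup.map (e : Y → X)) :=
      FreeGroup.map_injective e.injective
    let f2 : FreeGroup Y → K := fun b => f1 (FreeGroup.map e b)
    have hf2 : ∀ h, {b | f2 (b * h) ≠ f2 b}.Finite := by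
      intro h
      have := (hf1 (FreeGroup.map e h)).preimage (f := FreeGroup.map e) hinj.injOn
      refine this.subset ?_
      intro b hb
      simp only [Set.mem_preimage, Set.mem_ofPred_eq, f2, map_mul] at hb ⊢
      exact hb
    set w2 := FreeGroup.mk (List.ofFn cy) with hw2def
    have h21 : f2 w2 = f2 1 + 1 := by
      show f1 (FreeGroup.map e w2) = f1 (FreeGroup.map e 1) + 1
      rw [hmap, map_one, h11]
    have h22 : ∀ b, b ≠ 1 → f2 (b * w2) = f2 b := by
      intro b hb
      show f1 (FreeGroup.map e (b * w2)) = f1 (FreeGroup.map e b)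
      rw [map_mul, hmap]
      apply h12
      intro h
      exact hb (hinj (by rw [h, map_one]))
    have hredY : CycRed cy := by
      intro i h
      apply hred i
      have h3 := congrArg (fun s : Y × Bool => (s.1.1, s.2)) h
      exact h3
    have hoccY : ∀ y : Y, ∃ i, (cy i).1 = y := by
      rintro ⟨x, i, hi⟩
      exact ⟨i, Subtype.ext hi⟩
    have hprimY : PrimFG w2 := by
      by_cases hmin : WMin cy
      · obtain ⟨x, hx⟩ := tree_argument cy hredY hoccY hmin f2 (fun x => hf2 _) h21 h22
        exact primitive_of_deg_one cy x hx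
      · unfold WMin at hmin
        push Not at hmin
        obtain ⟨a, Z, ha, ha', hlt⟩ := hmin
        obtain ⟨α, W', g'', hα', hW'⟩ := whitehead_step cy a Z ha ha' hlt
        let f3 : FreeGroup Y → K := fun b => f2 (α.symm b)
        have h3 := ih (α w2) W' (by omega) ⟨g'', hα'⟩ f3
          (by
            intro x
            have := (hf2 (α.symm (FreeGroup.of x))).preimage (f := α.symm)
              α.symm.injective.injOn
            refine this.subset ?_
            intro b hb
            simp only [Set.mem_preimage, Set.mem_ofPred_eq, f3, map_mul] at hb ⊢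
            exact hb)
          (by
            show f2 (α.symm (α w2)) = f2 (α.symm 1) + 1
            rw [MulEquiv.symm_apply_apply, map_one, h21])
          (by
            intro b hb
            show f2 (α.symm (b * α w2)) = f2 (α.symm b)
            rw [map_mul, MulEquiv.symm_apply_apply]
            apply h22
            intro h
            exact hb (α.symm.injective (by rw [h, map_one])))
        have h4 := h3.map_equiv α.symm
        rwa [MulEquiv.symm_apply_apply] at h4
    have h5 := primitive_map e w2 hprimY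
    rw [hmap] at h5
    rw [hα]
    exact PrimFG.map_equiv h5 _

/-- T8 -/
theorem primitive_of_fun' [Finite X] (w : FreeGroup X) (f : FreeGroup X → K)
    (hf : ∀ x, {g | f (g * FreeGroup.of x) ≠ f g}.Finite)
    (hw1 : f w = f 1 + 1) (hw : ∀ g, g ≠ 1 → f (g * w) = f g) : PrimFG w := by
  classical
  obtain ⟨W, rfl⟩ : ∃ W, w = FreeGroup.mk W := ⟨w.toWord, FreeGroup.mk_toWord.symm⟩
  exact prim_aux _ _ W le_rfl ⟨1, by simp⟩ f hf hw1 hw

/-- part B -/
theorem partB (w : FreeGroup X) {m : ℕ} (H : Subgroup (FreeGroup X)) (hr : HasRank H m)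
    (hw : w ∈ H) (hnp : ¬ PrimIn H w) :
    ∃ I : RIdeal K X, IdealHasRank I m ∧ I ≠ ⊤ ∧ el K w - 1 ∈ I ∧
      ¬ PrimInIdeal I (el K w - 1) := by
  classical
  obtain ⟨b⟩ := hr
  obtain ⟨I, h1, h2, h3, h4⟩ := ideal_of_subgroup (K := K) H b
  refine ⟨I, h1, h2, h3 w hw, fun hp => hnp ?_⟩
  obtain ⟨d, hd1, hd2, hd3⟩ := h4 w hw hp
  have hd3 := hd3 hw
  -- function on H
  let F : H → K := fun h => (d h).coeff (h : FreeGroup X)
  have hF : ∀ g h : H, F (g * h) = F g + (d h).coeff ((g * h : H) : FreeGroup X) := by
    intro g h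
    show (d (g * h)).coeff ((g * h : H) : FreeGroup X) = _
    rw [hd2, MonoidAlgebra.coeff_add, Finsupp.add_apply]
    congr 1
    have := MonoidAlgebra.coeff_mul_single_apply (d g) (1 : K) (h : FreeGroup X)
      ((g * h : H) : FreeGroup X)
    rw [this, mul_one, Subgroup.coe_mul, mul_inv_cancel_right]
  have hFfin : ∀ h : H, {g : H | F (g * h) ≠ F g}.Finite := by
    intro h
    have h5 : {g : H | F (g * h) ≠ F g} ⊆
        (fun g : H => ((g * h : H) : FreeGroup X)) ⁻¹' ((d h).coeff.support : Set (FreeGroup X)) := by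
      intro g hg
      simp only [Set.mem_preimage, Finset.mem_coe, Finsupp.mem_support_iff]
      intro h0
      apply hg
      show F (g * h) = F g
      rw [hF, h0, add_zero]
    refine Set.Finite.subset ?_ h5
    apply Set.Finite.preimage _ (Finset.finite_toSet _)
    intro a _ a' _ haa
    have : (a * h : H) = a' * h := Subtype.ext haa
    exact mul_right_cancel this
  set w' : H := ⟨w, hw⟩ with hw'
  have hFw : ∀ g : H, F (g * w') = F g + if g * w' = 1 then 1 else 0 := by
    intro g
    rw [hF, hd3]
    congr 1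
    rw [MonoidAlgebra.one_def, MonoidAlgebra.coeff_single, Finsupp.single_apply]
    by_cases h : g * w' = 1
    · rw [if_pos h, if_pos (by rw [h]; rfl)]
    · rw [if_neg h, if_neg]
      intro h'
      apply h
      apply Subtype.ext
      exact h'.symm
  -- transport to FreeGroup (Fin m) and translate
  let e : H ≃* FreeGroup (Fin m) := b.repr
  let f : FreeGroup (Fin m) → K := fun y => F (w'⁻¹ * e.symm y)
  have hfin : ∀ x, {g | f (g * FreeGroup.of x) ≠ f g}.Finite := by
    intro x
    have h6 := (hFfin (e.symm (FreeGroup.of x))).preimage (f := fun y => w'⁻¹ * e.symm y)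
      (by
        intro a _ a' _ haa
        exact e.symm.injective (mul_left_cancel haa))
    refine h6.subset ?_
    intro g hg
    simp only [Set.mem_preimage, Set.mem_ofPred_eq, f, map_mul] at hg ⊢
    rw [mul_assoc]
    exact hg
  have hfw1 : f (e w') = f 1 + 1 := by
    show F (w'⁻¹ * e.symm (e w')) = F (w'⁻¹ * e.symm 1) + 1
    rw [MulEquiv.symm_apply_apply, map_one, mul_one, hFw, inv_mul_cancel, if_pos rfl]
  have hfw : ∀ g, g ≠ 1 → f (g * e w') = f g := by
    intro g hg
    show F (w'⁻¹ * e.symm (g * e w')) = F (w'⁻¹ * e.symm g)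
    rw [map_mul, MulEquiv.symm_apply_apply, ← mul_assoc, hFw, if_neg, add_zero]
    intro h
    apply hg
    apply e.symm.injective
    rw [map_one]
    have : w'⁻¹ * e.symm g = w'⁻¹ := by
      rw [eq_inv_iff_mul_eq_one]; exact h
    simpa using this
  obtain ⟨ι, b', i, hi⟩ := primitive_of_fun' (e w') f hfin hfw1 hfw
  refine ⟨ι, b'.map e.symm, i, ?_⟩
  rw [FreeGroupBasis.map_apply, hi, MulEquiv.symm_apply_apply]

end Pool.Agent.Helper29.QP
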