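/-
Main theorem for MP_55050e_al.  Further modules: helper89 (fg_free), helper49 (closure_rank).
-/
import Pool.Agent.Helper29.QP.AsmA3
import Pool.Agent.Helper29.QP.AsmB
import Pool.Agent.Helper89.QP.T1
import Pool.Agent.Helper49.QPT7

open MonoidAlgebra Module
open Pool.Agent.Helper89.QP (fg_free)
open Pool.Agent.Helper49.QPT7 (closure_rank)

namespace Pool.Agent.Helper29.QP

universe u
variable {K : Type u} [Field K] {X : Type}

theorem HasRank.map {H : Subgroup (FreeGroup X)} {m : ℕ} (h : HasRank H m)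
    (e : FreeGroup X ≃* FreeGroup X) : HasRank (H.map (e : FreeGroup X →* FreeGroup X)) m := by
  obtain ⟨b⟩ := h
  exact ⟨b.map (e.subgroupMap H)⟩

theorem PrimIn.of_map {H : Subgroup (FreeGroup X)} {w : FreeGroup X}
    (e : FreeGroup X ≃* FreeGroup X) (h : PrimIn (H.map (e : FreeGroup X →* FreeGroup X)) (e w)) : PrimIn H w := by
  obtain ⟨ι, b, i, hi⟩ := h
  refine ⟨ι, b.map (e.subgroupMap H).symm, i, ?_⟩
  apply e.injective
  rw [← hi]
  have := congrArg Subtype.val ((e.subgroupMap H).apply_symm_apply (b i))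
  exact this

/-- part A -/
theorem partA [Finite X] (w : FreeGroup X) {m : ℕ} (I : RIdeal K X) (hr : IdealHasRank I m)
    (hI : I ≠ ⊤) (hw : el K w - 1 ∈ I) (hnp : ¬ PrimInIdeal I (el K w - 1)) :
    ∃ k ≤ m, ∃ H : Subgroup (FreeGroup X), HasRank H k ∧ w ∈ H ∧ ¬ PrimIn H w := by
  classical
  cases nonempty_fintype X
  by_cases hw1 : w = 1
  · subst hw1
    obtain ⟨k, hk, hrk⟩ := closure_rank (∅ : Finset (FreeGroup X))
    rw [Finset.card_empty] at hk
    refine ⟨k, by omega, _, hrk, one_mem _, ?_⟩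
    rintro ⟨ι, b, i, hi⟩
    have h1 : b i = 1 := Subtype.ext hi
    have h2 := b.repr_apply_coe i
    rw [h1, map_one] at h2
    exact FreeGroup.one_ne_of i h2
  obtain ⟨n, cw, hred, ⟨g, hg⟩, -⟩ := exists_cycRed w hw1
  obtain ⟨b⟩ := hr
  have h1I : (1 : GA K X) ∉ I := by
    intro h
    apply hI
    rw [eq_top_iff]
    intro a _
    have := I.smul_mem (MulOpposite.op a) h
    rwa [op_smul_eq_mul, one_mul] at this
  -- the conjugated ideal
  let μ : GA K X →ₗ[(GA K X)ᵐᵒᵖ] GA K X :=
    { toFun := fun a => el K g * a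
      map_add' := fun a b => mul_add _ _ _
      map_smul' := fun c a => by
        rw [RingHom.id_apply, ← MulOpposite.op_unop c, op_smul_eq_mul, op_smul_eq_mul,
          mul_assoc] }
  have hμ : ∀ a, μ a = el K g * a := fun a => rfl
  let I' : RIdeal K X := I.comap μ
  have hgg : el K g * el K g⁻¹ = (1 : GA K X) := by
    rw [MonoidAlgebra.single_mul_single, mul_inv_cancel, one_mul]; rfl
  have hgg' : el K g⁻¹ * el K g = (1 : GA K X) := by
    rw [MonoidAlgebra.single_mul_single, inv_mul_cancel, one_mul]; rfl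
  have h1I' : (1 : GA K X) ∉ I' := by
    intro h
    apply h1I
    rw [Submodule.mem_comap, hμ, mul_one] at h
    have := I.smul_mem (MulOpposite.op (el K g⁻¹)) h
    rwa [op_smul_eq_mul, hgg] at this
  let y : I := ⟨el K w - 1, hw⟩
  let f0 : Fin m → GA K X := fun i => (b.repr y i).unop
  have hy : ∑ i, (b i : GA K X) * f0 i = el K w - 1 := by
    have h2 := congrArg (Submodule.subtype I) (b.sum_repr y)
    rw [map_sum] at h2
    exact h2
  let a : Fin m → GA K X := fun i => el K g⁻¹ * (b i : GA K X)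
  let f : Fin m → GA K X := fun i => f0 i * el K g
  have ha : ∀ i, a i ∈ I' := by
    intro i
    rw [Submodule.mem_comap, hμ, ← mul_assoc, hgg, one_mul]
    exact (b i).2
  have haf : ∑ i, a i * f i = el K (FreeGroup.mk (List.ofFn cw)) - 1 := by
    have h3 : ∑ i, a i * f i = el K g⁻¹ * (∑ i, (b i : GA K X) * f0 i) * el K g := by
      rw [Finset.mul_sum, Finset.sum_mul]
      refine Finset.sum_congr rfl fun i _ => ?_
      simp only [a, f, mul_assoc]
    rw [h3, hy, mul_sub, sub_mul, mul_one, hgg', MonoidAlgebra.single_mul_single,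
      MonoidAlgebra.single_mul_single, one_mul, one_mul]
    congr 2
    rw [hg]
    group
  have hf : ∀ c : Fin m → GA K X, ∑ i, c i * f i ≠ 1 := by
    intro c hc
    apply hnp
    refine prim_of_unimodular (fun L hL => fg_free L hL) I b y (fun i => el K g * c i) ?_
    have h4 : ∑ i, el K g * c i * (b.repr y i).unop =
        el K g * (∑ i, c i * f i) * el K g⁻¹ := by
      rw [Finset.mul_sum, Finset.sum_mul]
      refine Finset.sum_congr rfl fun i _ => ?_
      have : el K g * (c i * f i) * el K g⁻¹ = el K g * c i * f0 i * (el K g * el K g⁻¹) := by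
        simp only [f, mul_assoc]
      rw [this, hgg, mul_one]
    rw [h4, hc, mul_one, hgg]
  obtain ⟨S, hS1, hS2, hS3⟩ := partA_cyc cw hred I' h1I' a f ha haf hf
  obtain ⟨k, hk, hrk⟩ := closure_rank S
  have hwe : w = MulAut.conj g (FreeGroup.mk (List.ofFn cw)) := by
    rw [MulAut.conj_apply]; exact hg
  refine ⟨k, by omega, _, hrk.map (MulAut.conj g), ?_, ?_⟩
  · rw [hwe]
    exact Subgroup.mem_map_of_mem _ hS2
  · rw [hwe]
    intro h
    exact hS3 (PrimIn.of_map _ h)

/-- **Main theorem.** -/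
theorem main {r : ℕ} (w : FreeGroup (Fin r)) : primRankK K w = primRank w := by
  apply le_antisymm
  · apply le_sInf
    rintro n ⟨m, H, rfl, hr, hw, hnp⟩
    obtain ⟨I, h1, h2, h3, h4⟩ := partB (K := K) w H hr hw hnp
    exact sInf_le ⟨m, I, rfl, h1, h2, h3, h4⟩
  · apply le_sInf
    rintro n ⟨m, I, rfl, hr, hI, hw, hnp⟩
    obtain ⟨k, hk, H, h1, h2, h3⟩ := partA w I hr hI hw hnp
    refine le_trans (sInf_le ⟨k, H, rfl, h1, h2, h3⟩) ?_
    exact_mod_cast hk

end Pool.Agent.Helper29.QP
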